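import Pool.Agent.Helper65.FX.St

/-!
# Project FX (MP_3bffab_ag), module VEL: velocities of flows are continuous and tangent
-/

set_option autoImplicit false

namespace Pool.Agent.Helper64.FX

open Pool.Agent.Helper65.FX Pool.Agent.Helper87.FX

theorem hVEL : StVEL := by
  intro V _ _ _ P e hP he
  have hd : ∀ y : V, HasFDerivAt (fun c : ℂ => e c y)
      ((fderiv ℝ (fun z : ℂ × V => e z.1 z.2) (0, y)).comp (ContinuousLinearMap.inl ℝ ℂ V)) 0 := by
    intro y
    have h1 : HasFDerivAt (fun z : ℂ × V => e z.1 z.2)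
        (fderiv ℝ (fun z : ℂ × V => e z.1 z.2) (0, y)) ((0 : ℂ), y) :=
      ((he.sm.differentiable (by simp)) _).hasFDerivAt
    have h2 : HasFDerivAt (fun c : ℂ => (c, y)) (ContinuousLinearMap.inl ℝ ℂ V) 0 :=
      hasFDerivAt_prodMk_left 0 y
    exact h1.comp (0 : ℂ) h2
  have hv : ∀ y : V, vel e y =
      (fderiv ℝ (fun z : ℂ × V => e z.1 z.2) (0, y)).comp (ContinuousLinearMap.inl ℝ ℂ V) :=
    fun y => (hd y).fderiv
  constructor
  · have h3 : Continuous (fun y : V => fderiv ℝ (fun z : ℂ × V => e z.1 z.2) ((0 : ℂ), y)) :=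
      (he.sm.continuous_fderiv (by simp)).comp (by fun_prop)
    have h4 : (fun y => vel e y) = fun y : V =>
        (fderiv ℝ (fun z : ℂ × V => e z.1 z.2) (0, y)).comp (ContinuousLinearMap.inl ℝ ℂ V) :=
      funext hv
    rw [h4]
    exact h3.clm_comp continuous_const
  · intro y hy c
    have h1 : HasFDerivAt P (fderiv ℝ P (e 0 y)) (e 0 y) :=
      ((hP.differentiable (by simp)) _).hasFDerivAt
    have h2 : HasFDerivAt (fun c : ℂ => P (e c y)) ((fderiv ℝ P (e 0 y)).comp (vel e y)) 0 := by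
      rw [hv y]
      exact h1.comp (0 : ℂ) (hd y)
    have h3 : (fun c : ℂ => P (e c y)) = fun _ => 0 := by
      funext c
      exact he.pres c y hy
    rw [h3] at h2
    have h4 := h2.unique (hasFDerivAt_const (0 : ℂ) (0 : ℂ))
    have h5 := congrArg (fun L : ℂ →L[ℝ] ℂ => L c) h4
    rw [he.zero y] at h5
    simpa using h5

end Pool.Agent.Helper64.FX
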